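import Pool.Agent.H35.EX.Chord

/-!
# THEOREM UD: the predicates on the sphere

`moebius a b c d w = (a w + b) / (c w + d)` as a point of the sphere. `IsGapDisc θ C P x r ψ`: `ψ` is a univalent map of
the unit disc into the sphere (a Möbius map after a univalent map into the plane), `ψ (‖u‖ < θ)` contains the chordal
disc of radius `r / C` at `x`, `ψ (‖u‖ < 1)` is in the chordal disc of radius `r` at `x`, and the collar
`ψ (θ < ‖u‖ < 1)` is disjoint from `P`. `IsUD P`: gap discs with fixed `θ`, `C` at all points of `P` and all scales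
`< r0`. `ThinS s C r0 P`: the Assouad covering condition of exponent `s`: for `x ∈ P`, `0 < r < r0`, `0 < t < 1` the part
of `P` in the disc of radius `r` at `x` is covered by at most `C t ^ (-s)` discs of radius `t r`.
-/

set_option autoImplicit false

open Filter Topology Metric Set

namespace Pool.Agent.H91.AD

open Pool.Agent.H35.EX (chord)

/-- the point `(a w + b) / (c w + d)` of the sphere -/
noncomputable def moebius (a b c d w : ℂ) : OnePoint ℂ :=
  open Classical in if c * w + d = 0 then OnePoint.infty else (((a * w + b) / (c * w + d) : ℂ) : OnePoint ℂ)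

/-- gap discs of `P` at the point `x` and the scale `r` -/
structure IsGapDisc (θ C : ℝ) (P : Set (OnePoint ℂ)) (x : OnePoint ℂ) (r : ℝ) (ψ : ℂ → OnePoint ℂ) : Prop where
  conf : ∃ (a b c d : ℂ) (g : ℂ → ℂ), a * d - b * c ≠ 0 ∧ DifferentiableOn ℂ g (ball 0 1) ∧ InjOn g (ball 0 1) ∧
    ∀ u ∈ ball (0 : ℂ) 1, ψ u = moebius a b c d (g u)
  inn : ∀ y, chord y x < r / C → ∃ u : ℂ, ‖u‖ < θ ∧ ψ u = y
  out : ∀ u : ℂ, ‖u‖ < 1 → chord (ψ u) x < r
  col : ∀ u : ℂ, θ < ‖u‖ → ‖u‖ < 1 → ψ u ∉ P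

/-- uniformly disconnected sets of the sphere -/
def IsUD (P : Set (OnePoint ℂ)) : Prop :=
  ∃ θ C r0 : ℝ, 0 < θ ∧ θ < 1 ∧ 1 ≤ C ∧ 0 < r0 ∧ ∀ x ∈ P, ∀ r : ℝ, 0 < r → r < r0 → ∃ ψ, IsGapDisc θ C P x r ψ

/-- the Assouad covering condition of exponent `s` -/
def ThinS (s C r0 : ℝ) (P : Set (OnePoint ℂ)) : Prop :=
  ∀ x ∈ P, ∀ r : ℝ, 0 < r → r < r0 → ∀ t : ℝ, 0 < t → t < 1 →
    ∃ A : Finset (OnePoint ℂ), (A.card : ℝ) ≤ C * t ^ (-s) ∧ ∀ y ∈ P, chord y x < r → ∃ a ∈ A, chord y a < t * r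

end Pool.Agent.H91.AD
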