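import Pool.Agent.H27.BR.Defs
import Pool.Agent.H57.CF.ENF
import Pool.Agent.H64.JS.CNK

/-!
# THEOREM UD: interface of the theorem for one map (Julia set not the sphere)
-/

set_option autoImplicit false

open Filter Topology Polynomial Metric Set

namespace Pool.Agent.H91.AD

open Pool.Agent.H79.Eul Pool.Agent.H79.Par Pool.Agent.H47.NM Pool.Agent.H57.CF Pool.Agent.H44.RC Pool.Agent.H32.BT
open Pool.Agent.H27.BR (UDs)
open Pool.Agent.H64.JS (KJ)

variable {d : ℕ}

/-- THE THEOREM FOR ONE MAP (placeholder of `ud_map` in H31/UDC) -/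
theorem ud_map {m : ℕ} (hd : 2 ≤ d) (hm : m ≤ d) {x : Em d m} (hcop : IsCoprime (pol x.1) (pol x.2))
    (hdeg : max (pol x.1).natDegree (pol x.2).natDegree = d) (hup : ¬ UpF d m x)
    (hJ : JS (Rf (ex d m x)) ≠ univ) :
    (∀ c, IsCrit (Rf (ex d m x)) c → c ∉ JS (Rf (ex d m x))) ∨
      ¬ UDs (KJ {c | IsCrit (Rf (ex d m x)) c} (JS (Rf (ex d m x))) (Rf (ex d m x))) := by
  sorry

end Pool.Agent.H91.AD
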