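import Pool.Agent.H56.UD.Defs

/-!
# THEOREM UD, corollary AD: sets of Assouad dimension less than one have round gap discs

`Thin s C r0 P`: the planar Assouad covering condition: for `x ∈ P`, `0 < r < r0`, `0 < t < 1` the set `P ∩ ball x r` is
covered by at most `C t ^ (-s)` discs of radius `t r`. `ug_of_thin`: for `s < 1` it gives gap discs at all points of `P`
and all scales `< r0` (`UG`). Proof: the radii `ρ ∈ (r/2, 3r/4)` with `|‖a - x‖ - ρ| < 2 t r` for a centre `a` have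
measure at most `C t ^ (-s) 4 t r < r/4` for `t` small, so the annulus `|‖y - x‖ - ρ| < t r` is disjoint from `P` for
some `ρ`.
-/

set_option autoImplicit false

open Filter Topology Metric Set MeasureTheory

namespace Pool.Agent.H91.AD

open Pool.Agent.H56.UD (GD UG)

/-- the Assouad covering condition of exponent `s` in the plane -/
def Thin (s C r0 : ℝ) (P : Set ℂ) : Prop :=
  ∀ x ∈ P, ∀ r : ℝ, 0 < r → r < r0 → ∀ t : ℝ, 0 < t → t < 1 →
    ∃ A : Finset ℂ, (A.card : ℝ) ≤ C * t ^ (-s) ∧ ∀ y ∈ P, ‖y - x‖ < r → ∃ a ∈ A, ‖y - a‖ < t * r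

/-- choice of the relative scale -/
private theorem exists_t {s C : ℝ} (hs : s < 1) :
    ∃ t : ℝ, 0 < t ∧ t ≤ 1 / 8 ∧ C * t ^ (-s) * (4 * t) < 1 / 4 := by
  have h1 : Tendsto (fun t : ℝ => t ^ (1 - s)) (𝓝[>] 0) (𝓝 0) := by
    have h2 : Tendsto (fun t : ℝ => t ^ (1 - s)) (𝓝 0) (𝓝 ((0 : ℝ) ^ (1 - s))) :=
      (Real.continuousAt_rpow_const 0 (1 - s) (Or.inr (by linarith))).tendsto
    rw [Real.zero_rpow (by linarith)] at h2
    exact h2.mono_left nhdsWithin_le_nhds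
  have h3 : ∀ᶠ t : ℝ in 𝓝[>] 0, t ^ (1 - s) < 1 / (16 * (|C| + 1)) :=
    h1.eventually (gt_mem_nhds (by positivity))
  have h4 : ∀ᶠ t : ℝ in 𝓝[>] 0, t ∈ Ioc (0 : ℝ) (1 / 8) := Ioc_mem_nhdsGT (by norm_num)
  obtain ⟨t, ht1, ht2⟩ := (h3.and h4).exists
  refine ⟨t, ht2.1, ht2.2, ?_⟩
  have h5 : t ^ (-s) * t = t ^ (1 - s) := by
    rw [sub_eq_neg_add, Real.rpow_add ht2.1, Real.rpow_one]
  have h6 : 0 < t ^ (1 - s) := Real.rpow_pos_of_pos ht2.1 _
  rw [lt_div_iff₀ (by positivity)] at ht1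
  have h7 : C * t ^ (-s) * (4 * t) = 4 * (C * t ^ (1 - s)) := by rw [← h5]; ring
  rw [h7]
  have h8 : C * t ^ (1 - s) ≤ |C| * t ^ (1 - s) := mul_le_mul_of_nonneg_right (le_abs_self C) h6.le
  nlinarith [abs_nonneg C]

/-- a free radius -/
private theorem free_radius {x : ℂ} {r t : ℝ} (hr : 0 < r) (ht : 0 < t) (A : Finset ℂ)
    (hA : (A.card : ℝ) * (4 * t) < 1 / 4) :
    ∃ ρ : ℝ, r / 2 < ρ ∧ ρ < 3 / 4 * r ∧ ∀ a ∈ A, 2 * t * r ≤ |‖a - x‖ - ρ| := by
  by_contra hcon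
  push Not at hcon
  have hsub : Ioo (r / 2) (3 / 4 * r) ⊆ ⋃ a ∈ A, Ioo (‖a - x‖ - 2 * t * r) (‖a - x‖ + 2 * t * r) := by
    intro ρ hρ
    obtain ⟨a, ha, h⟩ := hcon ρ hρ.1 hρ.2
    rw [abs_lt] at h
    exact mem_biUnion ha ⟨by linarith [h.2], by linarith [h.1]⟩
  have h1 : volume (Ioo (r / 2) (3 / 4 * r)) ≤ ∑ a ∈ A, ENNReal.ofReal (4 * t * r) := by
    refine (measure_mono hsub).trans ((measure_biUnion_finset_le _ _).trans (le_of_eq ?_))
    refine Finset.sum_congr rfl fun a _ => ?_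
    rw [Real.volume_Ioo]
    congr 1
    ring
  rw [Real.volume_Ioo, Finset.sum_const, nsmul_eq_mul, ← ENNReal.ofReal_natCast,
    ← ENNReal.ofReal_mul (Nat.cast_nonneg _), ENNReal.ofReal_le_ofReal_iff (by positivity)] at h1
  nlinarith

theorem ug_of_thin {s C r0 : ℝ} {P : Set ℂ} (hs : s < 1) (h : Thin s C r0 P) :
    ∃ θ C' : ℝ, 0 < θ ∧ θ < 1 ∧ 1 ≤ C' ∧ UG θ C' r0 P := by
  obtain ⟨t, ht0, ht1, ht2⟩ := exists_t (C := C) hs
  refine ⟨1 - 2 * t, 4, by linarith, by linarith, by norm_num, ?_⟩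
  intro x hx r hr hr0
  obtain ⟨A, hA, hcov⟩ := h x hx r hr hr0 t ht0 (by linarith)
  obtain ⟨ρ, hρ1, hρ2, hρ⟩ := free_radius (x := x) hr ht0 A (by
    refine lt_of_le_of_lt ?_ ht2
    exact mul_le_mul_of_nonneg_right hA (by positivity))
  have hfree : ∀ y ∈ P, t * r ≤ |‖y - x‖ - ρ| := by
    intro y hy
    by_contra hcon
    push Not at hcon
    rw [abs_lt] at hcon
    have h1 : ‖y - x‖ < r := by nlinarith [hcon.2]
    obtain ⟨a, ha, hya⟩ := hcov y hy h1
    have h2 := hρ a ha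
    have h3 : |‖a - x‖ - ‖y - x‖| < t * r := by
      refine lt_of_le_of_lt (abs_norm_sub_norm_le _ _) ?_
      have h4 : a - x - (y - x) = -(y - a) := by ring
      rw [h4, norm_neg]
      exact hya
    rw [abs_lt] at h3
    have h5 : |‖a - x‖ - ρ| < 2 * t * r := by
      rw [abs_lt]
      constructor
      · nlinarith [h3.1, hcon.1]
      · nlinarith [h3.2, hcon.2]
    exact absurd h2 (not_le.2 h5)
  have htr : 0 < t * r := mul_pos ht0 hr
  have ht8 : t * r ≤ 1 / 8 * r := mul_le_mul_of_nonneg_right ht1 hr.le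
  set R : ℝ := ρ + t * r with hR
  have hR0 : 0 < R := by rw [hR]; linarith
  have hRr : R < r := by rw [hR]; linarith
  have hRC : (R : ℂ) ≠ 0 := by exact_mod_cast hR0.ne'
  refine ⟨fun u => x + R * u, ?_, ?_, ?_, ?_, ?_⟩
  · exact ((differentiable_const _).add ((differentiable_const _).mul differentiable_id)).differentiableOn
  · intro u _ v _ huv
    have h1 : (R : ℂ) * u = R * v := add_left_cancel huv
    exact mul_left_cancel₀ hRC h1
  · intro y hy
    rw [mem_ball, dist_eq_norm] at hy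
    refine ⟨(y - x) / R, ?_, ?_⟩
    · rw [mem_ball, dist_zero_right, norm_div, Complex.norm_real, Real.norm_eq_abs, abs_of_pos hR0,
        div_lt_iff₀ hR0]
      nlinarith
    · field_simp
      ring
  · rintro _ ⟨u, hu, rfl⟩
    rw [mem_ball, dist_zero_right] at hu
    rw [mem_ball, dist_eq_norm]
    have h1 : x + (R : ℂ) * u - x = R * u := by ring
    rw [h1, norm_mul, Complex.norm_real, Real.norm_eq_abs, abs_of_pos hR0]
    nlinarith [norm_nonneg u]
  · intro u hu1 hu2 hP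
    have h1 := hfree _ hP
    have h2 : x + (R : ℂ) * u - x = R * u := by ring
    rw [h2, norm_mul, Complex.norm_real, Real.norm_eq_abs, abs_of_pos hR0] at h1
    have h3 : |R * ‖u‖ - ρ| < t * r := by
      rw [abs_lt]
      constructor
      · nlinarith
      · nlinarith
    exact absurd h1 (not_le.2 h3)

end Pool.Agent.H91.AD
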