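import Pool.Agent.H91.AD.Defs
import Pool.Agent.H91.AD.Thin
import Pool.Agent.H44.RC.CHB

/-!
# THEOREM UD, corollary AD: the covering condition on the sphere gives gap discs in every chart

`thin_of_thinS`: if `e` maps `P'` into `P` and is bi-Lipschitz on `P'` (constant `B`) then `ThinS` for `P` gives `Thin`
for `P'`. Only points of `P'` near `x` matter, so the bounds are asked for pairs of points of `P'` only.
`ug_of_thinS`: together with `ug_of_thin`: `UG` for `P'`. `not_thinS`: if `P'` has no gap discs then `P` is not thin.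
-/

set_option autoImplicit false

open Filter Topology Metric Set

namespace Pool.Agent.H91.AD

open Pool.Agent.H35.EX (chord)
open Pool.Agent.H56.UD (UG)

theorem thin_of_thinS {s C r0 B : ℝ} {P : Set (OnePoint ℂ)} {P' : Set ℂ} {e : ℂ → OnePoint ℂ} (hB : 1 ≤ B)
    (he : ∀ y ∈ P', e y ∈ P) (h1 : ∀ y ∈ P', ∀ z ∈ P', ‖y - z‖ ≤ B * chord (e y) (e z))
    (h2 : ∀ y ∈ P', ∀ z ∈ P', chord (e y) (e z) ≤ B * ‖y - z‖) (h : ThinS s C r0 P) :
    ∃ C' : ℝ, Thin s C' (r0 / B) P' := by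
  classical
  have hB0 : 0 < B := by linarith
  refine ⟨C * (2 * B ^ 2) ^ s, ?_⟩
  intro x hx r hr hr0 t ht ht1
  have hr' : B * r < r0 := by rw [lt_div_iff₀ hB0] at hr0; linarith
  have hBB : 1 ≤ B ^ 2 := by nlinarith
  have hT : 0 < t / (2 * B ^ 2) := by positivity
  have hT1 : t / (2 * B ^ 2) < 1 := by
    rw [div_lt_one (by positivity)]
    linarith
  obtain ⟨A, hA, hcov⟩ := h (e x) (he x hx) (B * r) (by positivity) hr' _ hT hT1
  have hch : ∀ a : OnePoint ℂ, ∃ p : ℂ, (∃ y ∈ P', chord (e y) a < t / (2 * B ^ 2) * (B * r)) →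
      p ∈ P' ∧ chord (e p) a < t / (2 * B ^ 2) * (B * r) := by
    intro a
    by_cases hex : ∃ y ∈ P', chord (e y) a < t / (2 * B ^ 2) * (B * r)
    · obtain ⟨y, hy, hya⟩ := hex
      exact ⟨y, fun _ => ⟨hy, hya⟩⟩
    · exact ⟨0, fun h0 => absurd h0 hex⟩
  choose p hp using hch
  refine ⟨A.image p, ?_, ?_⟩
  · have h3 : ((A.image p).card : ℝ) ≤ A.card := by exact_mod_cast Finset.card_image_le
    refine h3.trans (hA.trans (le_of_eq ?_))
    rw [Real.div_rpow ht.le (by positivity), Real.rpow_neg (by positivity : (0 : ℝ) ≤ 2 * B ^ 2)]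
    field_simp
  · intro y hy hyx
    have h3 : chord (e y) (e x) < B * r := (h2 y hy x hx).trans_lt (mul_lt_mul_of_pos_left hyx hB0)
    obtain ⟨a, ha, hya⟩ := hcov (e y) (he y hy) h3
    obtain ⟨hpP, hpa⟩ := hp a ⟨y, hy, hya⟩
    refine ⟨p a, Finset.mem_image_of_mem p ha, ?_⟩
    have h4 : chord (e y) (e (p a)) < 2 * (t / (2 * B ^ 2) * (B * r)) := by
      have h5 := Pool.Agent.H44.RC.ch_tri (e y) a (e (p a))
      rw [Pool.Agent.H44.RC.ch_comm a] at h5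
      linarith
    have h6 := h1 y hy (p a) hpP
    have h7 : B * (2 * (t / (2 * B ^ 2) * (B * r))) = t * r := by
      field_simp
    calc ‖y - p a‖ ≤ B * chord (e y) (e (p a)) := h6
      _ < B * (2 * (t / (2 * B ^ 2) * (B * r))) := mul_lt_mul_of_pos_left h4 hB0
      _ = t * r := h7

theorem ug_of_thinS {s C r0 B : ℝ} {P : Set (OnePoint ℂ)} {P' : Set ℂ} {e : ℂ → OnePoint ℂ} (hs : s < 1) (hB : 1 ≤ B)
    (he : ∀ y ∈ P', e y ∈ P) (h1 : ∀ y ∈ P', ∀ z ∈ P', ‖y - z‖ ≤ B * chord (e y) (e z))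
    (h2 : ∀ y ∈ P', ∀ z ∈ P', chord (e y) (e z) ≤ B * ‖y - z‖) (h : ThinS s C r0 P) :
    ∃ θ C' : ℝ, 0 < θ ∧ θ < 1 ∧ 1 ≤ C' ∧ UG θ C' (r0 / B) P' := by
  obtain ⟨C', h3⟩ := thin_of_thinS hB he h1 h2 h
  exact ug_of_thin hs h3

end Pool.Agent.H91.AD
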